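import Pool.Agent.H258R3.HeiC
import Pool.Agent.H258R3.HeiD

/-!
MP_2c2cb6_an, Q1: the discrete Heisenberg group embeds into the automorphism group of a
multidimensional shift.
-/

set_option autoImplicit false

namespace Pool.Agent.Results.MP_2c2cb6_an.Heisenberg

open Pool.Agent.H258R3

/-- The translation by `u` on configurations: `(σ^u x) v = x (u + v)`. -/
def shift {d k : ℕ} (u : Fin d → ℤ) (x : (Fin d → ℤ) → Fin k) : (Fin d → ℤ) → Fin k :=
  fun v => x (u + v)

/-- `X` is a shift (subshift) of dimension `d` over the alphabet `Fin k`: nonempty, closed in the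
product topology and invariant under all translations. -/
def IsShift {d k : ℕ} (X : Set ((Fin d → ℤ) → Fin k)) : Prop :=
  X.Nonempty ∧ IsClosed X ∧ ∀ u : Fin d → ℤ, shift u '' X = X

/-- The group of homeomorphisms of `X` (with the topology induced from the product topology). -/
def Homeo {d k : ℕ} (X : Set ((Fin d → ℤ) → Fin k)) : Type := X ≃ₜ X

/-- Its group structure: composition of homeomorphisms (the instance of Mathlib). -/
instance instGroupHomeo {d k : ℕ} (X : Set ((Fin d → ℤ) → Fin k)) : Group (Homeo X) :=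
  (inferInstance : Group (X ≃ₜ X))

/-- The map of `X` given by a homeomorphism. -/
def Homeo.app {d k : ℕ} {X : Set ((Fin d → ℤ) → Fin k)} (φ : Homeo X) (x : X) : X :=
  Homeomorph.toEquiv φ x

/-- The homeomorphism `φ` of `X` commutes with all translations: `y = σ^u x` exactly when
`φ y = σ^u (φ x)`. -/
def Commutes {d k : ℕ} {X : Set ((Fin d → ℤ) → Fin k)} (φ : Homeo X) : Prop :=
  ∀ (u : Fin d → ℤ) (x y : X), y.1 = shift u x.1 ↔ (φ.app y).1 = shift u (φ.app x).1

theorem commutes_mul {d k : ℕ} {X : Set ((Fin d → ℤ) → Fin k)} {φ ψ : Homeo X}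
    (hφ : Commutes φ) (hψ : Commutes ψ) : Commutes (φ * ψ) :=
  fun u x y => (hψ u x y).trans (hφ u (ψ.app x) (ψ.app y))

theorem commutes_one {d k : ℕ} (X : Set ((Fin d → ℤ) → Fin k)) : Commutes (1 : Homeo X) :=
  fun _ _ _ => Iff.rfl

theorem commutes_inv {d k : ℕ} {X : Set ((Fin d → ℤ) → Fin k)} {φ : Homeo X}
    (hφ : Commutes φ) : Commutes φ⁻¹ := by
  intro u x y
  have h := hφ u (Homeomorph.symm φ x) (Homeomorph.symm φ y)
  have e : ∀ w : X, φ.app (Homeomorph.symm φ w) = w := fun w => Homeomorph.apply_symm_apply φ w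
  rw [e, e] at h
  exact h.symm

/-- The automorphism group of `X`: the homeomorphisms of `X` commuting with all translations. -/
def Aut {d k : ℕ} (X : Set ((Fin d → ℤ) → Fin k)) : Subgroup (Homeo X) where
  carrier := {φ | Commutes φ}
  one_mem' := commutes_one X
  mul_mem' := commutes_mul
  inv_mem' := commutes_inv

/-- `M` is upper unitriangular. -/
def Unitriangular (M : Matrix (Fin 3) (Fin 3) ℤ) : Prop :=
  M 0 0 = 1 ∧ M 1 1 = 1 ∧ M 2 2 = 1 ∧ M 1 0 = 0 ∧ M 2 0 = 0 ∧ M 2 1 = 0

theorem uni_one : Unitriangular (1 : Matrix.SpecialLinearGroup (Fin 3) ℤ).1 := by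
  simp [Unitriangular]

theorem uni_mul (M N : Matrix.SpecialLinearGroup (Fin 3) ℤ) (hM : Unitriangular M.1)
    (hN : Unitriangular N.1) : Unitriangular (M * N).1 := by
  obtain ⟨a1, a2, a3, a4, a5, a6⟩ := hM
  obtain ⟨b1, b2, b3, b4, b5, b6⟩ := hN
  simp [Unitriangular, Matrix.SpecialLinearGroup.coe_mul, Matrix.mul_apply,
    Fin.sum_univ_three, *]

theorem uni_inv (M : Matrix.SpecialLinearGroup (Fin 3) ℤ) (hM : Unitriangular M.1) :
    Unitriangular (M⁻¹).1 := by
  obtain ⟨a1, a2, a3, a4, a5, a6⟩ := hM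
  simp [Unitriangular, Matrix.SpecialLinearGroup.coe_inv, Matrix.adjugate_fin_three, *]

/-- The discrete Heisenberg group: the upper unitriangular matrices in `SL(3, ℤ)`. -/
def Heis : Subgroup (Matrix.SpecialLinearGroup (Fin 3) ℤ) where
  carrier := {M | Unitriangular M.1}
  one_mem' := uni_one
  mul_mem' := uni_mul _ _
  inv_mem' := uni_inv _

/-- The group `G` embeds into the group `G'`: there is an injective homomorphism. -/
def Embeds (G G' : Type) [Group G] [Group G'] : Prop :=
  ∃ f : G →* G', Function.Injective f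

/-- The discrete Heisenberg group embeds into the automorphism group of a shift of some dimension
`d ≥ 2`. -/
theorem result :
    ∃ (d k : ℕ) (X : Set ((Fin d → ℤ) → Fin k)), 2 ≤ d ∧ IsShift X ∧ Embeds Heis (Aut X) := by
  refine ⟨Hei.dd, Hei.kk, Hei.XX, Hei.dd_ge, ⟨⟨_, Hei.pt_mem 0 (fun _ => true)⟩, Hei.XX_closed,
    ?_⟩, ?_⟩
  · intro u
    ext x
    constructor
    · rintro ⟨w, hw, rfl⟩
      exact Hei.XX_sh u w hw
    · intro hx
      refine ⟨Hei.sh (-u) x, Hei.XX_sh (-u) x hx, ?_⟩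
      funext v
      show x (-u + (u + v)) = x v
      rw [neg_add_cancel_left]
  · let x : Aut Hei.XX := ⟨Hei.HX, fun u p q => Hei.HX_sh u p q⟩
    let y : Aut Hei.XX := ⟨Hei.HY, fun u p q => Hei.HY_sh u p q⟩
    let z : Aut Hei.XX := x * y * x⁻¹ * y⁻¹
    have hxy : x * y = z * (y * x) := Subtype.ext Hei.rel_xy
    have hzx : z * x = x * z := Subtype.ext Hei.rel_zx
    have hzy : z * y = y * z := Subtype.ext Hei.rel_zy
    have hzn : ∀ n : ℕ, 0 < n → z ^ n ≠ 1 := by
      intro n hn h
      have h1 := congrArg Subtype.val h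
      rw [SubgroupClass.coe_pow] at h1
      exact Hei.HZ_pow_ne n hn h1
    let f : Heis →* Aut Hei.XX := MonoidHom.mk'
      (fun M => z ^ (M.1.1 0 2) * (y ^ (M.1.1 1 2) * x ^ (M.1.1 0 1))) (by
        rintro ⟨M, a1, a2, a3, a4, a5, a6⟩ ⟨N, b1, b2, b3, b4, b5, b6⟩
        have e1 : (M * N).1 0 2 = M.1 0 2 + N.1 0 2 + M.1 0 1 * N.1 1 2 := by
          simp only [Matrix.SpecialLinearGroup.coe_mul, Matrix.mul_apply, Fin.sum_univ_three,
            a1, b3]
          ring
        have e2 : (M * N).1 1 2 = M.1 1 2 + N.1 1 2 := by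
          simp only [Matrix.SpecialLinearGroup.coe_mul, Matrix.mul_apply, Fin.sum_univ_three,
            a2, a4, b3]
          ring
        have e3 : (M * N).1 0 1 = M.1 0 1 + N.1 0 1 := by
          simp only [Matrix.SpecialLinearGroup.coe_mul, Matrix.mul_apply, Fin.sum_univ_three,
            a1, b2, b6]
          ring
        show z ^ ((M * N).1 0 2) * (y ^ ((M * N).1 1 2) * x ^ ((M * N).1 0 1)) = _
        rw [e1, e2, e3]
        exact Hei.heis_mul x y z hxy hzx hzy _ _ _ _ _ _)
    refine ⟨f, ?_⟩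
    rw [injective_iff_map_eq_one]
    rintro ⟨M, a1, a2, a3, a4, a5, a6⟩ h
    obtain ⟨h1, h2, h3⟩ := Hei.heis_ker x y z hxy hzx hzy hzn _ _ _ h
    apply Subtype.ext
    apply Subtype.ext
    show M.1 = 1
    ext i j
    fin_cases i <;> fin_cases j <;> simp_all

end Pool.Agent.Results.MP_2c2cb6_an.Heisenberg
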